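import Pool.Agent.Run7.h461.EE.Tree

set_option autoImplicit false

namespace Pool.Agent.Run7.h461.EE

/-- tails of colours -/
def tail (i k : ℕ) : Bool := decide ((Nat.unpair k).1 = i)

/-- the colour with finite initial part `p` and class `i` -/
def col (p : List Bool) (i k : ℕ) : Bool := p.getD k (tail i k)

theorem col_inj {p q : List Bool} {i j : ℕ} (h : ∀ k, col p i k = col q j k) : i = j := by
  by_contra hne
  have hk := h (Nat.pair i (p.length + q.length))
  have hge : p.length + q.length ≤ Nat.pair i (p.length + q.length) := Nat.right_le_pair _ _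
  unfold col at hk
  rw [List.getD_eq_default _ _ (by omega), List.getD_eq_default _ _ (by omega)] at hk
  simp [tail] at hk
  exact hne hk

theorem col_init (r : ℕ → Bool) (K i k : ℕ) (hk : k < K) :
    col ((List.range K).map r) i k = r k := by
  unfold col
  rw [List.getD_eq_getElem _ _ (by simpa using hk)]
  simp

/-- pair data: initial part and class of the upward colour, initial part of the downward colour -/
abbrev PD := List Bool × ℕ × List Bool

/-- self data: initial part and possible label -/
abbrev SD := List Bool × Option (List Bool)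

/-- A rich coding of finitely supported data by natural numbers. -/
structure Coding where
  pd : ℕ → ℕ → PD
  sd : ℕ → SD
  rich : ∀ (h : ℕ → PD) (N : ℕ) (s : SD), (∀ a ≥ N, h a = ([], 0, [])) →
    ∀ M, ∃ b ≥ M, (∀ a, pd a b = h a) ∧ sd b = s

theorem exists_coding : Nonempty Coding := by
  obtain ⟨g, hg⟩ := exists_surjective_nat (List PD × SD)
  let D : ℕ → List PD × SD := fun b => g (Nat.unpair b).1
  refine ⟨⟨fun a b => (D b).1.getD a ([], 0, []), fun b => (D b).2, ?_⟩⟩
  intro h N s hh M
  obtain ⟨c, hc⟩ := hg ((List.range N).map h, s)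
  refine ⟨Nat.pair c M, Nat.right_le_pair _ _, fun a => ?_, ?_⟩
  · simp only [D, Nat.unpair_pair, hc]
    by_cases ha : a < N
    · rw [List.getD_eq_getElem _ _ (by simpa using ha)]
      simp
    · rw [List.getD_eq_default _ _ (by simpa using ha)]
      exact (hh a (not_lt.mp ha)).symm
  · simp only [D, Nat.unpair_pair, hc]

variable (D : Coding) (F : (ℕ → ℕ) → (ℕ → Bool) × (ℕ → Bool))

/-- the element `b` is an active witness for the label `u` in the structure of `x` -/
def Act (x : ℕ → Bool) (b : ℕ) (u : List Bool) : Prop :=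
  ∃ s : ℕ → ℕ, (∀ i < u.length, i ≤ s i ∧ s i < b ∧ (D.pd (s i) b).2.1 = i + 1 ∧
    ∀ a < b, (D.pd a b).2.1 = i + 1 → a = s i) ∧ Tn F u.length (fun i => u.getD i false) x s

open Classical in
/-- the class of the self-colour -/
noncomputable def lab (x : ℕ → Bool) (b : ℕ) : ℕ :=
  match (D.sd b).2 with
  | none => 0
  | some u => if Act D F x b u then Encodable.encode u + 1 else 0

theorem lab_none {x : ℕ → Bool} {b : ℕ} (h : (D.sd b).2 = none) : lab D F x b = 0 := by
  unfold lab; rw [h]

theorem lab_some {x : ℕ → Bool} {b : ℕ} {u : List Bool} (h : (D.sd b).2 = some u)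
    (hA : Act D F x b u) : lab D F x b = Encodable.encode u + 1 := by
  unfold lab; rw [h]; simp [hA]

theorem lab_ne_zero {x : ℕ → Bool} {b : ℕ} (h : lab D F x b ≠ 0) :
    ∃ u, (D.sd b).2 = some u ∧ Act D F x b u ∧ lab D F x b = Encodable.encode u + 1 := by
  cases hsd : (D.sd b).2 with
  | none => exact absurd (lab_none D F hsd) h
  | some u =>
    by_cases hA : Act D F x b u
    · exact ⟨u, rfl, hA, lab_some D F hsd hA⟩
    · unfold lab at h
      rw [hsd] at h
      simp [hA] at h

/-- the colour of a pair -/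
noncomputable def cx (x : ℕ → Bool) (a b k : ℕ) : Bool :=
  if a < b then col (D.pd a b).1 ((D.pd a b).2.1 + 1) k
  else if b < a then col (D.pd b a).2.2 0 k
  else col (D.sd a).1 (lab D F x a) k

theorem cx_lt {x : ℕ → Bool} {a b k : ℕ} (h : a < b) :
    cx D F x a b k = col (D.pd a b).1 ((D.pd a b).2.1 + 1) k := by
  simp [cx, h]

theorem cx_gt {x : ℕ → Bool} {a b k : ℕ} (h : b < a) :
    cx D F x a b k = col (D.pd b a).2.2 0 k := by
  simp [cx, h, not_lt.mpr h.le]

theorem cx_self {x : ℕ → Bool} {a k : ℕ} :
    cx D F x a a k = col (D.sd a).1 (lab D F x a) k := by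
  simp [cx]

/-- colour preserving injections are strictly increasing -/
theorem strictMono_of_pres {x y : ℕ → Bool} {f : ℕ → ℕ} (hinj : Function.Injective f)
    (hf : ∀ a b k, cx D F y (f a) (f b) k = cx D F x a b k) : StrictMono f := by
  intro a b hab
  rcases lt_trichotomy (f a) (f b) with h | h | h
  · exact h
  · exact absurd (hinj h) hab.ne
  · exfalso
    have : ∀ k, col (D.pd (f b) (f a)).2.2 0 k = col (D.pd a b).1 ((D.pd a b).2.1 + 1) k := by
      intro k
      rw [← cx_gt D F (x := y) h, hf, cx_lt D F hab]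
    have := col_inj this
    omega

theorem pd_class_of_pres {x y : ℕ → Bool} {f : ℕ → ℕ} (hinj : Function.Injective f)
    (hf : ∀ a b k, cx D F y (f a) (f b) k = cx D F x a b k) {a b : ℕ} (hab : a < b) :
    (D.pd (f a) (f b)).2.1 = (D.pd a b).2.1 := by
  have hlt := strictMono_of_pres D F hinj hf hab
  have : ∀ k, col (D.pd (f a) (f b)).1 ((D.pd (f a) (f b)).2.1 + 1) k =
      col (D.pd a b).1 ((D.pd a b).2.1 + 1) k := by
    intro k
    rw [← cx_lt D F (x := y) hlt, hf, cx_lt D F hab]
  have := col_inj this
  omega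

/-- the initial segment of `x` of length `n`, as a list -/
def seg (x : ℕ → Bool) (n : ℕ) : List Bool := (List.range n).map x

@[simp] theorem seg_length (x : ℕ → Bool) (n : ℕ) : (seg x n).length = n := by simp [seg]

theorem seg_getD (x : ℕ → Bool) {n i : ℕ} (hi : i < n) : (seg x n).getD i false = x i := by
  rw [List.getD_eq_getElem _ _ (by simpa using hi)]
  simp [seg]

/-- from a colour preserving injection we get the tree relation at all levels -/
theorem Tn_of_pres {x y : ℕ → Bool} {f : ℕ → ℕ} (hinj : Function.Injective f)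
    (hf : ∀ a b k, cx D F y (f a) (f b) k = cx D F x a b k) (n : ℕ) : Tn F n x y f := by
  have hmono := strictMono_of_pres D F hinj hf
  obtain ⟨b, hb, hpd, hsd⟩ := D.rich (fun a => if a < n then ([], a + 1, []) else ([], 0, []))
    n ([], some (seg x n)) (by intro a ha; simp [not_lt.mpr ha]) n
  have hact : Act D F x b (seg x n) := by
    refine ⟨id, ?_, ?_⟩
    · intro i hi
      rw [seg_length] at hi
      refine ⟨le_rfl, lt_of_lt_of_le hi hb, ?_, ?_⟩
      · rw [hpd]; simp [hi]
      · intro a ha h
        rw [hpd] at h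
        by_cases han : a < n
        · simp [han] at h; simpa using h
        · simp [han] at h
    · rw [seg_length]
      exact Tn_congr (fun i hi => (seg_getD x hi).symm) (fun _ _ => rfl) (fun _ _ => rfl)
        (Tn_refl n x id)
  have hlab : lab D F x b = Encodable.encode (seg x n) + 1 := lab_some D F (by rw [hsd]) hact
  have hlab' : lab D F y (f b) = lab D F x b := by
    have : ∀ k, col (D.sd (f b)).1 (lab D F y (f b)) k = col (D.sd b).1 (lab D F x b) k := by
      intro k
      rw [← cx_self D F (x := y), hf, cx_self]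
    exact col_inj this
  obtain ⟨u, hu, hu2, hu3⟩ := lab_ne_zero D F (x := y) (b := f b) (by rw [hlab', hlab]; omega)
  have huu : u = seg x n := by
    have : Encodable.encode u = Encodable.encode (seg x n) := by
      have := hu3.symm.trans (hlab'.trans hlab)
      omega
    exact Encodable.encode_injective this
  subst huu
  obtain ⟨s, hs, hT⟩ := hu2
  rw [seg_length] at hs hT
  refine Tn_congr (fun i hi => seg_getD x hi) (fun _ _ => rfl) (fun i hi => ?_) hT
  have hib : i < b := lt_of_lt_of_le hi hb
  refine ((hs i hi).2.2.2 (f i) (hmono hib) ?_).symm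
  rw [pd_class_of_pres D F hinj hf hib, hpd]
  simp [hi]

/-- isomorphisms are trivial -/
theorem eq_id_of_pres {x y : ℕ → Bool} {f : ℕ → ℕ} (hbij : Function.Bijective f)
    (hf : ∀ a b k, cx D F y (f a) (f b) k = cx D F x a b k) : f = id ∧ x = y := by
  have hmono := strictMono_of_pres D F hbij.1 hf
  have hid : f = id := by
    have hle : ∀ n, n ≤ f n := fun n => hmono.id_le n
    have hge : ∀ n, f n ≤ n := by
      intro n
      induction n using Nat.strong_induction_on with
      | _ n ih =>
        obtain ⟨m, hm⟩ := hbij.2 n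
        rcases lt_trichotomy m n with h | h | h
        · have := ih m h
          omega
        · rw [h] at hm; exact hm.le
        · have := hle m
          omega
    funext n
    exact le_antisymm (hge n) (hle n)
  refine ⟨hid, ?_⟩
  funext i
  obtain ⟨w, γ, h1, h2, h3⟩ := Tn_of_pres D F hbij.1 hf (i+1)
  subst hid
  exact (h1 i (Nat.lt_succ_self i)).symm.trans (h2 i (Nat.lt_succ_self i))

/-- a recursion principle -/
theorem exists_strong_rec (P : (b : ℕ) → ((a : ℕ) → a < b → ℕ) → ℕ → Prop)
    (h : ∀ b prev, ∃ v, P b prev v) : ∃ f : ℕ → ℕ, ∀ b, P b (fun a _ => f a) (f b) := by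
  classical
  let f : ℕ → ℕ := WellFounded.fix (C := fun _ => ℕ) Nat.lt_wfRel.wf
    (fun b prev => Classical.choose (h b prev))
  refine ⟨f, fun b => ?_⟩
  have : f b = Classical.choose (h b (fun a _ => f a)) := by
    show WellFounded.fix _ _ b = _
    rw [WellFounded.fix_eq]
  rw [this]
  exact Classical.choose_spec (h b (fun a _ => f a))

/-- the embedding from a witness -/
theorem exists_pres {x y : ℕ → Bool} {β : ℕ → ℕ} (hβ : F β = (x, y)) :
    ∃ f : ℕ → ℕ, Function.Injective f ∧
      ∀ a b k, cx D F y (f a) (f b) k = cx D F x a b k := by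
  classical
  let g : ℕ → ℕ := fun a => a + 1 + ∑ j ∈ Finset.range (a+1), β j
  have hg : ∀ i a, i ≤ a → a + max 1 (β i) ≤ g a := by
    intro i a hia
    have : β i ≤ ∑ j ∈ Finset.range (a+1), β j :=
      Finset.single_le_sum (f := β) (fun _ _ => Nat.zero_le _) (Finset.mem_range.mpr (by omega))
    simp only [g]
    omega
  obtain ⟨f, hf⟩ := exists_strong_rec
    (fun b prev v => (∀ a (h : a < b), prev a h < v) ∧ g b ≤ v ∧
      (∀ a', D.pd a' v = if h : ∃ a, ∃ h : a < b, prev a h = a' then D.pd (Classical.choose h) b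
        else ([], 0, [])) ∧
      D.sd v = if lab D F x b = 0 then ((D.sd b).1, none) else D.sd b) (by
    intro b prev
    let N := ∑ a ∈ (Finset.range b).attach, prev a.1 (Finset.mem_range.mp a.2)
    have hN : ∀ a (h : a < b), prev a h ≤ N := by
      intro a h
      exact Finset.single_le_sum (f := fun a : {a // a ∈ Finset.range b} =>
        prev a.1 (Finset.mem_range.mp a.2)) (fun _ _ => Nat.zero_le _)
        (Finset.mem_attach _ ⟨a, Finset.mem_range.mpr h⟩)
    obtain ⟨v, hv, h1, h2⟩ := D.rich
      (fun a' => if h : ∃ a, ∃ h : a < b, prev a h = a' then D.pd (Classical.choose h) b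
        else ([], 0, [])) (N + 1)
      (if lab D F x b = 0 then ((D.sd b).1, none) else D.sd b) (by
        intro a' ha'
        have : ¬ ∃ a, ∃ h : a < b, prev a h = a' := by
          rintro ⟨a, h, h'⟩
          have := hN a h
          omega
        simp [this]) (N + 1 + g b)
    refine ⟨v, fun a h => ?_, by omega, h1, h2⟩
    have := hN a h
    omega)
  have hmono : StrictMono f := by
    intro a b hab
    exact (hf b).1 a hab
  have hpd1 : ∀ a b, a < b → D.pd (f a) (f b) = D.pd a b := by
    intro a b hab
    have h := (hf b).2.2.1 (f a)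
    have hex : ∃ a', ∃ _ : a' < b, f a' = f a := ⟨a, hab, rfl⟩
    rw [h, dif_pos hex]
    have := Classical.choose_spec hex
    obtain ⟨_, h2⟩ := this
    rw [hmono.injective h2]
  have hpd2 : ∀ a' b, (D.pd a' (f b)).2.1 ≠ 0 → ∃ a, a < b ∧ f a = a' := by
    intro a' b hne
    have h := (hf b).2.2.1 a'
    by_cases hex : ∃ a, ∃ _ : a < b, f a = a'
    · obtain ⟨a, h1, h2⟩ := hex
      exact ⟨a, h1, h2⟩
    · rw [dif_neg hex] at h
      rw [h] at hne
      exact absurd rfl hne
  have hge : ∀ i a, i ≤ a → a + max 1 (β i) ≤ f a := fun i a hia =>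
    (hg i a hia).trans (hf a).2.1
  have hsd1 : ∀ b, (D.sd (f b)).1 = (D.sd b).1 := by
    intro b
    rw [(hf b).2.2.2]
    split_ifs <;> rfl
  have hlab : ∀ b, lab D F y (f b) = lab D F x b := by
    intro b
    have hs := (hf b).2.2.2
    by_cases h0 : lab D F x b = 0
    · rw [if_pos h0] at hs
      rw [h0]
      exact lab_none D F (by rw [hs])
    · rw [if_neg h0] at hs
      obtain ⟨u, hu1, hu2, hu3⟩ := lab_ne_zero D F h0
      rw [hu3]
      refine lab_some D F (by rw [hs, hu1]) ?_
      obtain ⟨s, hs1, hs2⟩ := hu2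
      refine ⟨fun i => f (s i), ?_, ?_⟩
      · intro i hi
        obtain ⟨c1, c2, c3, c4⟩ := hs1 i hi
        refine ⟨?_, hmono c2, ?_, ?_⟩
        · have := hge i (s i) c1
          show i ≤ f (s i)
          omega
        · rw [hpd1 _ _ c2]; exact c3
        · intro a' ha' h'
          obtain ⟨a, ha1, ha2⟩ := hpd2 a' b (by rw [h']; omega)
          subst ha2
          rw [hpd1 _ _ ha1] at h'
          rw [c4 a ha1 h']
      · refine Tn_step hβ hs2 ?_
        intro i hi
        exact hge i (s i) (hs1 i hi).1
  refine ⟨f, hmono.injective, fun a b k => ?_⟩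
  rcases lt_trichotomy a b with h | h | h
  · rw [cx_lt D F (hmono h), cx_lt D F h, hpd1 _ _ h]
  · subst h
    rw [cx_self, cx_self, hsd1, hlab]
  · rw [cx_gt D F (hmono h), cx_gt D F h, hpd1 _ _ h]

/-- the extension property of finite reducts -/
def Ext (c : ℕ → ℕ → ℕ → Bool) : Prop :=
  ∀ (K : ℕ) (S : Finset ℕ) (P Q : ℕ → ℕ → Bool) (r : ℕ → Bool),
    ∃ b, b ∉ S ∧ (∀ a ∈ S, ∀ k < K, c a b k = P a k ∧ c b a k = Q a k) ∧ ∀ k < K, c b b k = r k

theorem ext_cx (x : ℕ → Bool) : Ext (cx D F x) := by
  classical
  intro K S P Q r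
  obtain ⟨b, hb, h1, h2⟩ := D.rich
    (fun a => if a ∈ S then ((List.range K).map (P a), 0, (List.range K).map (Q a))
      else ([], 0, [])) (S.sup id + 1) ((List.range K).map r, none) (by
      intro a ha
      have : a ∉ S := by
        intro h
        have : a ≤ S.sup id := Finset.le_sup (f := id) h
        omega
      simp [this]) (S.sup id + 1)
  have hlt : ∀ a ∈ S, a < b := by
    intro a ha
    have : a ≤ S.sup id := Finset.le_sup (f := id) ha
    omega
  refine ⟨b, fun h => lt_irrefl _ (hlt b h), ?_, ?_⟩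
  · intro a ha k hk
    have hab := hlt a ha
    rw [cx_lt D F hab, cx_gt D F hab, h1]
    simp only [ha, if_true]
    exact ⟨col_init _ _ _ _ hk, col_init _ _ _ _ hk⟩
  · intro k hk
    rw [cx_self, h2]
    exact col_init _ _ _ _ hk

end Pool.Agent.Run7.h461.EE
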