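import Pool.Agent.Run7.h461.EE.Code

set_option autoImplicit false

namespace Pool.Agent.Run7.h461.EE

open FirstOrder

/-- the language with countably many binary relation symbols -/
abbrev LL : FirstOrder.Language :=
  FirstOrder.Language.mk (fun _ => PEmpty.{1}) (fun n => {i : ℕ // (fun _ : ℕ => 2) i = n})

/-- the structure on `ℕ` coded by `u` -/
abbrev SS (u : ∀ _ : ℕ, (Fin 2 → ℕ) → Bool) : LL.Structure ℕ :=
  @FirstOrder.Language.Structure.mk LL ℕ
    (fun f _ => PEmpty.elim f)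
    (fun r xs => u (Subtype.val r) (xs ∘ Fin.cast (Subtype.property r)) = true)

/-- the colour function of a code -/
def cc (u : ∀ _ : ℕ, (Fin 2 → ℕ) → Bool) (a b k : ℕ) : Bool := u k ![a, b]

/-- agreement of two tuples up to level `K` -/
def Agree {ι : Type} (K : ℕ) (u u' : ∀ _ : ℕ, (Fin 2 → ℕ) → Bool) (w w' : ι → ℕ) : Prop :=
  ∀ i j, (w i = w j ↔ w' i = w' j) ∧ ∀ k < K, cc u (w i) (w j) k = cc u' (w' i) (w' j) k

theorem Agree.mono {ι : Type} {K K' : ℕ} {u u' : ∀ _ : ℕ, (Fin 2 → ℕ) → Bool} {w w' : ι → ℕ}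
    (h : Agree K u u' w w') (hK : K' ≤ K) : Agree K' u u' w w' :=
  fun i j => ⟨(h i j).1, fun k hk => (h i j).2 k (lt_of_lt_of_le hk hK)⟩

theorem Agree.symm {ι : Type} {K : ℕ} {u u' : ∀ _ : ℕ, (Fin 2 → ℕ) → Bool} {w w' : ι → ℕ}
    (h : Agree K u u' w w') : Agree K u' u w' w :=
  fun i j => ⟨(h i j).1.symm, fun k hk => ((h i j).2 k hk).symm⟩

theorem term_var {α : Type} (t : LL.Term α) : ∃ a, t = FirstOrder.Language.Term.var a := by
  cases t with
  | var a => exact ⟨a, rfl⟩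
  | func f _ => exact PEmpty.elim f

/-- one step of back-and-forth -/
theorem Agree.extend {m n K : ℕ} {u u' : ∀ _ : ℕ, (Fin 2 → ℕ) → Bool} (hu : Ext (cc u))
    {v v' : Fin m → ℕ} {xs xs' : Fin n → ℕ}
    (h : Agree K u u' (Sum.elim v xs) (Sum.elim v' xs')) (a' : ℕ) :
    ∃ a, Agree K u u' (Sum.elim v (Fin.snoc xs a : Fin (n+1) → ℕ))
      (Sum.elim v' (Fin.snoc xs' a' : Fin (n+1) → ℕ)) := by
  classical
  -- reduce to a statement about tuples indexed by `Option`
  suffices H : ∃ a, ∀ i : Fin m ⊕ Fin n,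
      (Sum.elim v xs i = a ↔ Sum.elim v' xs' i = a') ∧
      (∀ k < K, cc u (Sum.elim v xs i) a k = cc u' (Sum.elim v' xs' i) a' k) ∧
      (∀ k < K, cc u a (Sum.elim v xs i) k = cc u' a' (Sum.elim v' xs' i) k) ∧
      (∀ k < K, cc u a a k = cc u' a' a' k) by
    obtain ⟨a, ha⟩ := H
    by_cases hmn : Nonempty (Fin m ⊕ Fin n)
    · obtain ⟨i0⟩ := hmn
      refine ⟨a, ?_⟩
      have hcase : ∀ j : Fin m ⊕ Fin (n+1),
          (∃ i : Fin m ⊕ Fin n, Sum.elim v (Fin.snoc xs a : Fin (n+1) → ℕ) j = Sum.elim v xs i ∧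
            Sum.elim v' (Fin.snoc xs' a' : Fin (n+1) → ℕ) j = Sum.elim v' xs' i) ∨
          (Sum.elim v (Fin.snoc xs a : Fin (n+1) → ℕ) j = a ∧
            Sum.elim v' (Fin.snoc xs' a' : Fin (n+1) → ℕ) j = a') := by
        rintro (j | j)
        · exact Or.inl ⟨Sum.inl j, rfl, rfl⟩
        · refine Fin.lastCases ?_ (fun j => ?_) j
          · right; simp
          · left; exact ⟨Sum.inr j, by simp, by simp⟩
      intro i j
      rcases hcase i with ⟨i', hi1, hi2⟩ | ⟨hi1, hi2⟩ <;>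
      rcases hcase j with ⟨j', hj1, hj2⟩ | ⟨hj1, hj2⟩
      · rw [hi1, hi2, hj1, hj2]; exact h i' j'
      · rw [hi1, hi2, hj1, hj2]; exact ⟨(ha i').1, (ha i').2.1⟩
      · rw [hi1, hi2, hj1, hj2]
        exact ⟨by rw [eq_comm, (ha j').1, eq_comm], (ha j').2.2.1⟩
      · rw [hi1, hi2, hj1, hj2]; exact ⟨by simp, (ha i0).2.2.2⟩
    · -- no old variables at all
      obtain ⟨b, -, -, hb⟩ := hu K ∅ (fun _ _ => true) (fun _ _ => true)
        (fun k => cc u' a' a' k)
      refine ⟨b, ?_⟩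
      have hcase : ∀ j : Fin m ⊕ Fin (n+1),
          (Sum.elim v (Fin.snoc xs b : Fin (n+1) → ℕ) j = b ∧
            Sum.elim v' (Fin.snoc xs' a' : Fin (n+1) → ℕ) j = a') := by
        rintro (j | j)
        · exact absurd ⟨Sum.inl j⟩ hmn
        · refine Fin.lastCases ?_ (fun j => ?_) j
          · simp
          · exact absurd ⟨Sum.inr j⟩ hmn
      intro i j
      rw [(hcase i).1, (hcase i).2, (hcase j).1, (hcase j).2]
      exact ⟨by simp, hb⟩
  by_cases hex : ∃ i, Sum.elim v' xs' i = a'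
  · obtain ⟨i0, hi0⟩ := hex
    refine ⟨Sum.elim v xs i0, fun i => ?_⟩
    rw [← hi0]
    exact ⟨(h i i0).1, (h i i0).2, (h i0 i).2, (h i0 i0).2⟩
  · push Not at hex
    let S : Finset ℕ := Finset.univ.image (Sum.elim v xs)
    -- choose representatives
    let rep : ℕ → ℕ := fun a => if hh : ∃ i, Sum.elim v xs i = a then
      Sum.elim v' xs' (Classical.choose hh) else 0
    have hrep : ∀ i, rep (Sum.elim v xs i) = Sum.elim v' xs' i := by
      intro i
      have hh : ∃ j, Sum.elim v xs j = Sum.elim v xs i := ⟨i, rfl⟩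
      simp only [rep, dif_pos hh]
      exact (h _ _).1.mp (Classical.choose_spec hh)
    obtain ⟨b, hb1, hb2, hb3⟩ := hu K S (fun a k => cc u' (rep a) a' k)
      (fun a k => cc u' a' (rep a) k) (fun k => cc u' a' a' k)
    have hmem : ∀ i, Sum.elim v xs i ∈ S := fun i => Finset.mem_image_of_mem _ (Finset.mem_univ i)
    refine ⟨b, fun i => ⟨?_, ?_, ?_, hb3⟩⟩
    · constructor
      · intro hc
        exact absurd (hc ▸ hmem i) hb1
      · intro hc
        exact absurd hc (hex i)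
    · intro k hk
      rw [(hb2 _ (hmem i) k hk).1, hrep]
    · intro k hk
      rw [(hb2 _ (hmem i) k hk).2, hrep]

/-- finite reducts of rich structures have quantifier elimination -/
theorem realize_iff {m n : ℕ} (φ : LL.BoundedFormula (Fin m) n) :
    ∃ K, ∀ (u u' : ∀ _ : ℕ, (Fin 2 → ℕ) → Bool), Ext (cc u) → Ext (cc u') →
      ∀ (v v' : Fin m → ℕ) (xs xs' : Fin n → ℕ),
        Agree K u u' (Sum.elim v xs) (Sum.elim v' xs') →
        (@FirstOrder.Language.BoundedFormula.Realize LL ℕ (SS u) _ _ φ v xs ↔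
          @FirstOrder.Language.BoundedFormula.Realize LL ℕ (SS u') _ _ φ v' xs') := by
  induction φ with
  | falsum => exact ⟨0, fun u u' _ _ v v' xs xs' _ => Iff.rfl⟩
  | equal t₁ t₂ =>
    refine ⟨0, fun u u' _ _ v v' xs xs' h => ?_⟩
    obtain ⟨a, rfl⟩ := term_var t₁
    obtain ⟨b, rfl⟩ := term_var t₂
    exact (h a b).1
  | rel R ts =>
    obtain ⟨i, rfl⟩ := R
    refine ⟨i + 1, fun u u' _ _ v v' xs xs' h => ?_⟩
    obtain ⟨a, ha⟩ := term_var (ts 0)
    obtain ⟨b, hb⟩ := term_var (ts 1)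
    have key : ∀ (u : ∀ _ : ℕ, (Fin 2 → ℕ) → Bool) (v : Fin m → ℕ) (xs : Fin _ → ℕ),
        @FirstOrder.Language.BoundedFormula.Realize LL ℕ (SS u) _ _
          (FirstOrder.Language.BoundedFormula.rel ⟨i, rfl⟩ ts) v xs ↔
        cc u (Sum.elim v xs a) (Sum.elim v xs b) i = true := by
      intro u v xs
      have : (fun j : Fin 2 => @FirstOrder.Language.Term.realize LL ℕ (SS u) _ (Sum.elim v xs)
          (ts j)) = ![Sum.elim v xs a, Sum.elim v xs b] := by
        funext j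
        refine Fin.cases ?_ (fun j => ?_) j
        · rw [ha]; rfl
        · have : j = 0 := Subsingleton.elim _ _
          subst this
          show @FirstOrder.Language.Term.realize LL ℕ (SS u) _ (Sum.elim v xs) (ts 1) = _
          rw [hb]; rfl
      show u i ((fun j : Fin 2 => @FirstOrder.Language.Term.realize LL ℕ (SS u) _ (Sum.elim v xs)
          (ts j)) ∘ Fin.cast rfl) = true ↔ _
      rw [this]
      rfl
    rw [key, key, (h a b).2 i (Nat.lt_succ_self i)]
  | imp f₁ f₂ ih₁ ih₂ =>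
    obtain ⟨K₁, h₁⟩ := ih₁
    obtain ⟨K₂, h₂⟩ := ih₂
    refine ⟨max K₁ K₂, fun u u' hu hu' v v' xs xs' h => ?_⟩
    have e1 := h₁ u u' hu hu' v v' xs xs' (h.mono (le_max_left _ _))
    have e2 := h₂ u u' hu hu' v v' xs xs' (h.mono (le_max_right _ _))
    show (_ → _) ↔ (_ → _)
    rw [e1, e2]
  | all f ih =>
    obtain ⟨K, hK⟩ := ih
    refine ⟨K, fun u u' hu hu' v v' xs xs' h => ?_⟩
    show (∀ a, _) ↔ (∀ a, _)
    constructor
    · intro hall a'
      obtain ⟨a, ha⟩ := h.extend hu a'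
      exact (hK u u' hu hu' v v' _ _ ha).mp (hall a)
    · intro hall a
      obtain ⟨a', ha'⟩ := h.symm.extend hu' a
      exact (hK u u' hu hu' v v' _ _ ha'.symm).mpr (hall a')

/-- colour-preserving injections between rich structures are elementary -/
theorem elem_of_pres {u u' : ∀ _ : ℕ, (Fin 2 → ℕ) → Bool} (hu : Ext (cc u)) (hu' : Ext (cc u'))
    {f : ℕ → ℕ} (hinj : Function.Injective f)
    (hf : ∀ a b k, cc u' (f a) (f b) k = cc u a b k) :
    Nonempty (@FirstOrder.Language.ElementaryEmbedding LL ℕ ℕ (SS u) (SS u')) := by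
  refine ⟨@FirstOrder.Language.ElementaryEmbedding.mk LL ℕ ℕ (SS u) (SS u') f ?_⟩
  intro n φ x
  obtain ⟨K, hK⟩ := realize_iff φ
  refine (hK u u' hu hu' x (f ∘ x) _ _ ?_).symm
  rintro (i | i) (j | j)
  · exact ⟨⟨fun h => congrArg f h, fun h => hinj h⟩, fun k _ => (hf _ _ k).symm⟩
  · exact Fin.elim0 j
  · exact Fin.elim0 i
  · exact Fin.elim0 i

theorem pres_of_elem {u u' : ∀ _ : ℕ, (Fin 2 → ℕ) → Bool}
    (h : Nonempty (@FirstOrder.Language.ElementaryEmbedding LL ℕ ℕ (SS u) (SS u'))) :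
    ∃ f : ℕ → ℕ, Function.Injective f ∧ ∀ a b k, cc u' (f a) (f b) k = cc u a b k := by
  obtain ⟨f⟩ := h
  let g : ℕ → ℕ := @FirstOrder.Language.ElementaryEmbedding.toFun LL ℕ ℕ (SS u) (SS u') f
  refine ⟨g, ?_, ?_⟩
  · exact @FirstOrder.Language.ElementaryEmbedding.injective LL ℕ ℕ (SS u) (SS u') f
  · intro a b k
    have := @FirstOrder.Language.ElementaryEmbedding.map_rel LL ℕ ℕ (SS u) (SS u') f 2
      (⟨k, rfl⟩ : LL.Relations 2) ![a, b]
    have h1 : (u' k (![g a, g b]) = true) ↔ (u k ![a, b] = true) := by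
      have e : (g ∘ ![a, b]) = ![g a, g b] := by
        funext j
        refine Fin.cases rfl (fun j => ?_) j
        have : j = 0 := Subsingleton.elim _ _
        subst this
        rfl
      rw [← e]
      exact this
    unfold cc
    rcases hb : u k ![a, b] with _ | _ <;> rcases hb' : u' k ![g a, g b] with _ | _
    · rfl
    · rw [hb, hb'] at h1; simp at h1
    · rw [hb, hb'] at h1; simp at h1
    · rfl

end Pool.Agent.Run7.h461.EE
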