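import Pool.Agent.Run7.h461.EE.Elem

set_option autoImplicit false

namespace Pool.Agent.Run7.h461.EE

open MeasureTheory

/-- Topological reduction: an analytic reflexive relation on a nonempty Polish space. -/
theorem exists_rep (X : Type) [TopologicalSpace X] [PolishSpace X] [MeasurableSpace X]
    [BorelSpace X] [hX : Nonempty X] (R : X → X → Prop) (hrefl : ∀ x, R x x)
    (hR : AnalyticSet {p : X × X | R p.1 p.2}) :
    ∃ (e : X → ℕ → Bool) (F : (ℕ → ℕ) → (ℕ → Bool) × (ℕ → Bool)), Measurable e ∧
      Function.Injective e ∧ Continuous F ∧ (∀ x y, R x y ↔ ∃ β, F β = (e x, e y)) ∧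
      (∀ β, ∃ x y, F β = (e x, e y)) := by
  obtain ⟨e, hem, hei⟩ := MeasurableSpace.measurable_injection_nat_bool_of_countablySeparated X
  obtain ⟨t', ht', hcont, hpol⟩ := hem.exists_continuous
  rename_i tX _ _ _
  have hid : @Continuous X X t' tX id := continuous_id_of_le ht'
  have hidp : @Continuous (X × X) (X × X) (@instTopologicalSpaceProd X X t' t')
      (@instTopologicalSpaceProd X X tX tX) id := by
    have h1 : @Continuous (X × X) X (@instTopologicalSpaceProd X X t' t') tX (id ∘ Prod.fst) :=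
      @Continuous.comp (X × X) X X (@instTopologicalSpaceProd X X t' t') t' tX _ _ hid
        (@continuous_fst X X t' t')
    have h2 : @Continuous (X × X) X (@instTopologicalSpaceProd X X t' t') tX (id ∘ Prod.snd) :=
      @Continuous.comp (X × X) X X (@instTopologicalSpaceProd X X t' t') t' tX _ _ hid
        (@continuous_snd X X t' t')
    exact @Continuous.prodMk X X (X × X) tX tX (@instTopologicalSpaceProd X X t' t') _ _ h1 h2
  have hR' : @AnalyticSet (X × X) (@instTopologicalSpaceProd X X t' t')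
      {p : X × X | R p.1 p.2} := by
    have := @AnalyticSet.preimage (X × X) (X × X) (@instTopologicalSpaceProd X X t' t')
      (@instTopologicalSpaceProd X X tX tX) inferInstance inferInstance _ hR id hidp
    exact this
  rw [AnalyticSet] at hR'
  rcases hR' with h | ⟨f, hf, hfr⟩
  · obtain ⟨x⟩ := hX
    have : ((x, x) : X × X) ∈ {p : X × X | R p.1 p.2} := hrefl x
    rw [h] at this
    exact absurd this (Set.notMem_empty _)
  · refine ⟨e, fun β => (e (f β).1, e (f β).2), hem, hei, ?_, ?_, ?_⟩
    · have h1 : @Continuous (ℕ → ℕ) X _ t' (fun β => (f β).1) :=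
        (@continuous_fst X X t' t').comp hf
      have h2 : @Continuous (ℕ → ℕ) X _ t' (fun β => (f β).2) :=
        (@continuous_snd X X t' t').comp hf
      exact (hcont.comp h1).prodMk (hcont.comp h2)
    · intro x y
      constructor
      · intro h
        have : ((x, y) : X × X) ∈ Set.range f := by rw [hfr]; exact h
        obtain ⟨β, hβ⟩ := this
        exact ⟨β, by simp [hβ]⟩
      · rintro ⟨β, hβ⟩
        have h1 : (f β).1 = x := hei (congrArg Prod.fst hβ)
        have h2 : (f β).2 = y := hei (congrArg Prod.snd hβ)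
        have : f β ∈ {p : X × X | R p.1 p.2} := by rw [← hfr]; exact ⟨β, rfl⟩
        rw [← h1, ← h2]
        exact this
    · intro β
      exact ⟨(f β).1, (f β).2, rfl⟩

theorem measurableSet_of_local {P : (ℕ → Bool) → Prop} {n : ℕ}
    (h : ∀ x x' : ℕ → Bool, (∀ i < n, x i = x' i) → P x → P x') :
    MeasurableSet {x | P x} := by
  have : {x | P x} = (fun (x : ℕ → Bool) (i : Fin n) => x i) ⁻¹'
      {v : Fin n → Bool | P (fun i => if hi : i < n then v ⟨i, hi⟩ else false)} := by
    ext x
    simp only [Set.mem_ofPred_eq, Set.mem_preimage]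
    constructor
    · exact h _ _ (fun i hi => by simp [hi])
    · exact h _ _ (fun i hi => by simp [hi])
  rw [this]
  refine measurableSet_preimage ?_ (MeasurableSet.of_discrete)
  exact measurable_pi_lambda _ fun i => measurable_pi_apply _

theorem Act_congr (D : Coding) {F : (ℕ → ℕ) → (ℕ → Bool) × (ℕ → Bool)} {x x' : ℕ → Bool}
    {b : ℕ} {u : List Bool} (hx : ∀ i < u.length, x i = x' i) (h : Act D F x b u) :
    Act D F x' b u := by
  obtain ⟨s, h1, h2⟩ := h
  exact ⟨s, h1, Tn_congr (fun _ _ => rfl) hx (fun _ _ => rfl) h2⟩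

theorem measurable_cx (D : Coding) (F : (ℕ → ℕ) → (ℕ → Bool) × (ℕ → Bool)) (a b k : ℕ) :
    Measurable (fun x : ℕ → Bool => cx D F x a b k) := by
  classical
  unfold cx
  split_ifs
  · exact measurable_const
  · exact measurable_const
  · have : Measurable (fun x : ℕ → Bool => lab D F x a) := by
      unfold lab
      cases (D.sd a).2 with
      | none => exact measurable_const
      | some u =>
        refine Measurable.ite ?_ measurable_const measurable_const
        exact measurableSet_of_local (n := u.length) fun x x' hx h => Act_congr D hx h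
    exact (measurable_of_countable fun n => col (D.sd a).1 n k).comp this

section

variable {X : Type} [MeasurableSpace X] (D : Coding)
  (F : (ℕ → ℕ) → (ℕ → Bool) × (ℕ → Bool)) (e : X → ℕ → Bool)

/-- the code of the permuted structure -/
noncomputable def Phi (p : (ℕ → ℕ) × X) : ∀ _ : ℕ, (Fin 2 → ℕ) → Bool :=
  fun k v => cx D F (e p.2) (p.1 (v 0)) (p.1 (v 1)) k

theorem cc_Phi (σ : ℕ → ℕ) (x : X) (a b k : ℕ) :
    cc (Phi D F e (σ, x)) a b k = cx D F (e x) (σ a) (σ b) k := rfl

theorem measurable_Phi (he : Measurable e) : Measurable (Phi D F e) := by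
  refine measurable_pi_lambda _ fun k => measurable_pi_lambda _ fun v => ?_
  have h1 : Measurable (fun q : (ℕ × ℕ) × X => cx D F (e q.2) q.1.1 q.1.2 k) := by
    refine measurable_from_prod_countable_right fun ab => ?_
    exact (measurable_cx D F ab.1 ab.2 k).comp he
  have h2 : Measurable (fun p : (ℕ → ℕ) × X => (((p.1 (v 0), p.1 (v 1)), p.2) : (ℕ × ℕ) × X)) := by
    refine Measurable.prodMk (Measurable.prodMk ?_ ?_) measurable_snd
    · exact (measurable_pi_apply _).comp measurable_fst
    · exact (measurable_pi_apply _).comp measurable_fst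
  exact h1.comp h2

theorem measurableSet_bij : MeasurableSet {p : (ℕ → ℕ) × X | Function.Bijective p.1} := by
  have h : ∀ a : ℕ, Measurable (fun p : (ℕ → ℕ) × X => p.1 a) := fun a =>
    (measurable_pi_apply a).comp measurable_fst
  have : {p : (ℕ → ℕ) × X | Function.Bijective p.1} =
      (⋂ a : ℕ, ⋂ b : ℕ, {p | p.1 a = p.1 b → a = b}) ∩ ⋂ b : ℕ, ⋃ a : ℕ, {p | p.1 a = b} := by
    ext p
    simp [Function.Bijective, Function.Injective, Function.Surjective]
  rw [this]
  refine MeasurableSet.inter ?_ ?_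
  · refine MeasurableSet.iInter fun a => MeasurableSet.iInter fun b => ?_
    by_cases hab : a = b
    · simp [hab]
    · have : {p : (ℕ → ℕ) × X | p.1 a = p.1 b → a = b} = {p | p.1 a = p.1 b}ᶜ := by
        ext p; simp [hab]
      rw [this]
      exact (measurableSet_eq_fun (h a) (h b)).compl
  · refine MeasurableSet.iInter fun b => MeasurableSet.iUnion fun a => ?_
    exact (h a) (measurableSet_singleton b)

theorem Ext_Phi {σ : ℕ → ℕ} (hσ : Function.Bijective σ) (x : X) :
    Ext (cc (Phi D F e (σ, x))) := by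
  classical
  intro K S P Q r
  let τ : ℕ ≃ ℕ := Equiv.ofBijective σ hσ
  obtain ⟨b, h1, h2, h3⟩ := ext_cx D F (e x) K (S.image σ) (fun a => P (τ.symm a))
    (fun a => Q (τ.symm a)) r
  have hb : σ (τ.symm b) = b := τ.apply_symm_apply b
  refine ⟨τ.symm b, ?_, ?_, ?_⟩
  · intro hc
    apply h1
    rw [← hb]
    exact Finset.mem_image_of_mem σ hc
  · intro a ha k hk
    have := h2 (σ a) (Finset.mem_image_of_mem σ ha) k hk
    rw [cc_Phi, cc_Phi, hb]
    have e1 : τ.symm (σ a) = a := τ.symm_apply_apply a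
    rw [e1] at this
    exact this
  · intro k hk
    rw [cc_Phi, hb]
    exact h3 k hk

theorem Phi_inj (he : Function.Injective e) {σ τ : ℕ → ℕ} {x y : X}
    (hσ : Function.Bijective σ) (hτ : Function.Bijective τ)
    (h : Phi D F e (σ, x) = Phi D F e (τ, y)) : σ = τ ∧ x = y := by
  let σ' : ℕ ≃ ℕ := Equiv.ofBijective σ hσ
  have key : ∀ a b k, cx D F (e y) ((τ ∘ σ'.symm) a) ((τ ∘ σ'.symm) b) k =
      cx D F (e x) a b k := by
    intro a b k
    have := congrFun (congrFun h k) ![σ'.symm a, σ'.symm b]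
    have h2 : cx D F (e x) (σ (σ'.symm a)) (σ (σ'.symm b)) k =
      cx D F (e y) (τ (σ'.symm a)) (τ (σ'.symm b)) k := this
    have ea : σ (σ'.symm a) = a := σ'.apply_symm_apply a
    have eb : σ (σ'.symm b) = b := σ'.apply_symm_apply b
    rw [ea, eb] at h2
    exact h2.symm
  obtain ⟨h1, h2⟩ := eq_id_of_pres D F (hτ.comp σ'.symm.bijective) key
  refine ⟨?_, he h2⟩
  funext n
  have := congrFun h1 (σ n)
  have e1 : σ'.symm (σ n) = n := σ'.symm_apply_apply n
  simp only [Function.comp, e1, id] at this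
  exact this.symm

variable (R : X → X → Prop)

theorem ee_iff (hrefl : ∀ x, R x x) (htrans : ∀ x y z, R x y → R y z → R x z)
    (he : Function.Injective e) (hF : Continuous F)
    (h1 : ∀ x y, R x y ↔ ∃ β, F β = (e x, e y)) (h2 : ∀ β, ∃ x y, F β = (e x, e y))
    {σ τ : ℕ → ℕ} (hσ : Function.Bijective σ) (hτ : Function.Bijective τ) (x y : X) :
    Nonempty (@FirstOrder.Language.ElementaryEmbedding LL ℕ ℕ (SS (Phi D F e (σ, x)))
      (SS (Phi D F e (τ, y)))) ↔ R x y := by
  let σ' : ℕ ≃ ℕ := Equiv.ofBijective σ hσ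
  let τ' : ℕ ≃ ℕ := Equiv.ofBijective τ hτ
  constructor
  · intro h
    obtain ⟨f, hf1, hf2⟩ := pres_of_elem h
    have key : ∀ a b k, cx D F (e y) ((τ ∘ f ∘ σ'.symm) a) ((τ ∘ f ∘ σ'.symm) b) k =
        cx D F (e x) a b k := by
      intro a b k
      have := hf2 (σ'.symm a) (σ'.symm b) k
      rw [cc_Phi, cc_Phi] at this
      have ea : σ (σ'.symm a) = a := σ'.apply_symm_apply a
      have eb : σ (σ'.symm b) = b := σ'.apply_symm_apply b
      rw [ea, eb] at this
      exact this
    have hT := Tn_of_pres D F (hτ.1.comp (hf1.comp σ'.symm.injective)) key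
    obtain ⟨w, hw0, hw1, hw2⟩ := Tn_limit hF hT
    have chain : ∀ k ≤ (τ ∘ f ∘ σ'.symm) 0, ∃ z, w k = e z ∧ R x z := by
      intro k
      induction k with
      | zero => intro _; exact ⟨x, hw0, hrefl x⟩
      | succ k ih =>
        intro hk
        obtain ⟨z, hz1, hz2⟩ := ih (by omega)
        rcases hw2 k (by omega) with h | ⟨β, hβ⟩
        · exact ⟨z, by rw [← h, hz1], hz2⟩
        · obtain ⟨p, q, hpq⟩ := h2 β
          have e1 : w k = e p := congrArg Prod.fst (hβ.symm.trans hpq)
          have e2 : w (k+1) = e q := congrArg Prod.snd (hβ.symm.trans hpq)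
          have hzp : z = p := he (hz1.symm.trans e1)
          refine ⟨q, e2, htrans x z q hz2 ?_⟩
          rw [hzp]
          exact (h1 p q).mpr ⟨β, hpq⟩
    obtain ⟨z, hz1, hz2⟩ := chain _ le_rfl
    have : z = y := he (hz1.symm.trans hw1)
    rw [← this]
    exact hz2
  · intro h
    obtain ⟨β, hβ⟩ := (h1 x y).mp h
    obtain ⟨f, hf1, hf2⟩ := exists_pres D F hβ
    refine elem_of_pres (Ext_Phi D F e hσ x) (Ext_Phi D F e hτ y)
      (f := τ'.symm ∘ f ∘ σ) (τ'.symm.injective.comp (hf1.comp hσ.1)) ?_
    intro a b k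
    rw [cc_Phi, cc_Phi]
    have e1 : ∀ n, τ (τ'.symm n) = n := fun n => τ'.apply_symm_apply n
    simp only [Function.comp, e1]
    exact hf2 _ _ _

end

end Pool.Agent.Run7.h461.EE
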