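import Mathlib

set_option autoImplicit false

namespace Pool.Agent.Run7.h461.EE

/-- The Louveau-Rosendal style normal form of an analytic quasi-order, at level `n`.
`s 0` bounds the length of a chain and `s i` bounds the witnesses. -/
def Tn (F : (ℕ → ℕ) → (ℕ → Bool) × (ℕ → Bool)) (n : ℕ) (z y : ℕ → Bool) (s : ℕ → ℕ) : Prop :=
  ∃ (w : ℕ → ℕ → Bool) (γ : ℕ → ℕ → ℕ),
    (∀ i < n, w 0 i = z i) ∧ (∀ i < n, w (s 0) i = y i) ∧
    ∀ k < s 0, (∀ i < n, w k i = w (k+1) i) ∨
      ((∀ i < n, γ k i ≤ s i) ∧ (∀ i < n, (F (γ k)).1 i = w k i) ∧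
        (∀ i < n, (F (γ k)).2 i = w (k+1) i))

variable {F : (ℕ → ℕ) → (ℕ → Bool) × (ℕ → Bool)}

theorem Tn_zero (z y : ℕ → Bool) (s : ℕ → ℕ) : Tn F 0 z y s := by
  refine ⟨fun _ => z, fun _ => s, ?_, ?_, ?_⟩ <;> simp

theorem Tn_refl (n : ℕ) (x : ℕ → Bool) (s : ℕ → ℕ) : Tn F n x x s :=
  ⟨fun _ => x, fun _ => s, by simp, by simp, by simp⟩

theorem Tn_congr {n : ℕ} {z z' y y' : ℕ → Bool} {s s' : ℕ → ℕ} (hz : ∀ i < n, z i = z' i)
    (hy : ∀ i < n, y i = y' i) (hs : ∀ i < n, s i = s' i) (h : Tn F n z y s) :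
    Tn F n z' y' s' := by
  rcases Nat.eq_zero_or_pos n with rfl | hn
  · exact Tn_zero _ _ _
  obtain ⟨w, γ, h1, h2, h3⟩ := h
  have h0 : s 0 = s' 0 := hs 0 hn
  refine ⟨w, γ, fun i hi => (h1 i hi).trans (hz i hi), fun i hi => ?_, fun k hk => ?_⟩
  · rw [← h0]; exact (h2 i hi).trans (hy i hi)
  · rw [← h0] at hk
    rcases h3 k hk with h | ⟨ha, hb, hc⟩
    · exact Or.inl h
    · exact Or.inr ⟨fun i hi => (hs i hi) ▸ ha i hi, hb, hc⟩

theorem Tn_step {n : ℕ} {z x y : ℕ → Bool} {s t β : ℕ → ℕ} (hβ : F β = (x, y))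
    (h : Tn F n z x s) (ht : ∀ i < n, s i + max 1 (β i) ≤ t i) : Tn F n z y t := by
  rcases Nat.eq_zero_or_pos n with rfl | hn
  · exact Tn_zero _ _ _
  obtain ⟨w, γ, h1, h2, h3⟩ := h
  have h0 : s 0 + 1 ≤ t 0 := le_trans (by have := le_max_left 1 (β 0); omega) (ht 0 hn)
  refine ⟨fun k => if k ≤ s 0 then w k else y, fun k => if k < s 0 then γ k else β, ?_, ?_, ?_⟩
  · intro i hi
    simpa using h1 i hi
  · intro i hi
    have : ¬ t 0 ≤ s 0 := by omega
    simp [this]
  · intro k hk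
    rcases lt_trichotomy k (s 0) with hks | hks | hks
    · have e1 : k ≤ s 0 := hks.le
      have e2 : k + 1 ≤ s 0 := hks
      simp only [e1, e2, hks, if_true]
      rcases h3 k hks with h | ⟨ha, hb, hc⟩
      · exact Or.inl h
      · refine Or.inr ⟨fun i hi => ?_, hb, hc⟩
        have := ht i hi
        have := ha i hi
        omega
    · subst hks
      right
      have e2 : ¬ (s 0 + 1 ≤ s 0) := by omega
      simp only [le_refl, if_true, e2, if_false, lt_irrefl]
      refine ⟨fun i hi => ?_, fun i hi => ?_, fun i hi => ?_⟩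
      · have := ht i hi
        have := le_max_right 1 (β i)
        omega
      · rw [hβ]; exact (h2 i hi).symm
      · rw [hβ]
    · left
      have e1 : ¬ k ≤ s 0 := by omega
      have e2 : ¬ k + 1 ≤ s 0 := by omega
      simp [e1, e2]

/-- The compactness step. -/
theorem Tn_limit (hF : Continuous F) {x y : ℕ → Bool} {α : ℕ → ℕ} (h : ∀ n, Tn F n x y α) :
    ∃ w : ℕ → ℕ → Bool, w 0 = x ∧ w (α 0) = y ∧
      ∀ k < α 0, w k = w (k+1) ∨ ∃ β, F β = (w k, w (k+1)) := by
  classical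
  -- the compact space
  let C : ℕ → Set ((ℕ → ℕ → Bool) × (ℕ → ℕ → ℕ)) := fun n =>
    {p | (∀ k i, p.2 k i ≤ α i) ∧ (∀ i < n, p.1 0 i = x i) ∧ (∀ i < n, p.1 (α 0) i = y i) ∧
      ∀ k < α 0, (∀ i < n, p.1 k i = p.1 (k+1) i) ∨
        ∃ γ : ℕ → ℕ, (∀ i < n, γ i = p.2 k i) ∧ (∀ i < n, (F γ).1 i = p.1 k i) ∧
          (∀ i < n, (F γ).2 i = p.1 (k+1) i)}
  have hcomp : IsCompact {p : (ℕ → ℕ → Bool) × (ℕ → ℕ → ℕ) | ∀ k i, p.2 k i ≤ α i} := by
    have : {p : (ℕ → ℕ → Bool) × (ℕ → ℕ → ℕ) | ∀ k i, p.2 k i ≤ α i} =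
        (Set.univ : Set (ℕ → ℕ → Bool)) ×ˢ
          (Set.univ.pi fun _ : ℕ => Set.univ.pi fun i : ℕ => Set.Iic (α i)) := by
      ext p
      simp only [Set.mem_ofPred_eq, Set.mem_prod, Set.mem_univ, true_and, Set.mem_pi, Set.mem_Iic,
        forall_const]
    rw [this]
    refine IsCompact.prod isCompact_univ ?_
    refine isCompact_univ_pi fun _ => isCompact_univ_pi fun i => ?_
    exact (Set.finite_Iic (α i)).isCompact
  have hclosed : ∀ n, IsClosed (C n) := by
    intro n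
    have hA : IsClosed {p : (ℕ → ℕ → Bool) × (ℕ → ℕ → ℕ) | ∀ k i, p.2 k i ≤ α i} :=
      hcomp.isClosed
    have c1 : ∀ k i, Continuous fun p : (ℕ → ℕ → Bool) × (ℕ → ℕ → ℕ) => p.1 k i := by
      intro k i
      exact (continuous_apply i).comp ((continuous_apply k).comp continuous_fst)
    have c2 : ∀ k i, Continuous fun p : (ℕ → ℕ → Bool) × (ℕ → ℕ → ℕ) => p.2 k i := by
      intro k i
      exact (continuous_apply i).comp ((continuous_apply k).comp continuous_snd)
    have hB : IsClosed {p : (ℕ → ℕ → Bool) × (ℕ → ℕ → ℕ) | ∀ i < n, p.1 0 i = x i} := by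
      simp only [Set.ofPred_forall]
      exact isClosed_iInter fun i => isClosed_iInter fun _ => isClosed_eq (c1 0 i) continuous_const
    have hC : IsClosed {p : (ℕ → ℕ → Bool) × (ℕ → ℕ → ℕ) | ∀ i < n, p.1 (α 0) i = y i} := by
      simp only [Set.ofPred_forall]
      exact isClosed_iInter fun i => isClosed_iInter fun _ =>
        isClosed_eq (c1 (α 0) i) continuous_const
    have hD : IsClosed {p : (ℕ → ℕ → Bool) × (ℕ → ℕ → ℕ) |
        ∀ k < α 0, (∀ i < n, p.1 k i = p.1 (k+1) i) ∨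
        ∃ γ : ℕ → ℕ, (∀ i < n, γ i = p.2 k i) ∧ (∀ i < n, (F γ).1 i = p.1 k i) ∧
          (∀ i < n, (F γ).2 i = p.1 (k+1) i)} := by
      simp only [Set.ofPred_forall]
      refine isClosed_iInter fun k => isClosed_iInter fun _ => ?_
      -- preimage of a subset of a discrete space
      let Q : Set ((Fin n → Bool) × (Fin n → Bool) × (Fin n → ℕ)) :=
        {q | (∀ i : Fin n, q.1 i = q.2.1 i) ∨
          ∃ γ : ℕ → ℕ, (∀ i : Fin n, γ i = q.2.2 i) ∧ (∀ i : Fin n, (F γ).1 i = q.1 i) ∧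
          (∀ i : Fin n, (F γ).2 i = q.2.1 i)}
      have hcont : Continuous fun p : (ℕ → ℕ → Bool) × (ℕ → ℕ → ℕ) =>
          ((fun i : Fin n => p.1 k i, fun i : Fin n => p.1 (k+1) i, fun i : Fin n => p.2 k i) :
            (Fin n → Bool) × (Fin n → Bool) × (Fin n → ℕ)) := by
        refine Continuous.prodMk ?_ (Continuous.prodMk ?_ ?_)
        · exact continuous_pi fun i => c1 k i
        · exact continuous_pi fun i => c1 (k+1) i
        · exact continuous_pi fun i => c2 k i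
      have := (isClosed_discrete Q).preimage hcont
      convert this using 1
      ext p
      simp only [Set.mem_ofPred_eq, Set.mem_preimage, Q]
      constructor
      · rintro (h | ⟨γ, h1, h2, h3⟩)
        · exact Or.inl fun i => h i i.2
        · exact Or.inr ⟨γ, fun i => h1 i i.2, fun i => h2 i i.2, fun i => h3 i i.2⟩
      · rintro (h | ⟨γ, h1, h2, h3⟩)
        · exact Or.inl fun i hi => h ⟨i, hi⟩
        · exact Or.inr ⟨γ, fun i hi => h1 ⟨i, hi⟩, fun i hi => h2 ⟨i, hi⟩,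
            fun i hi => h3 ⟨i, hi⟩⟩
    have : C n = ({p : (ℕ → ℕ → Bool) × (ℕ → ℕ → ℕ) | ∀ k i, p.2 k i ≤ α i} ∩
        ({p | ∀ i < n, p.1 0 i = x i} ∩ ({p | ∀ i < n, p.1 (α 0) i = y i} ∩
        {p | ∀ k < α 0, (∀ i < n, p.1 k i = p.1 (k+1) i) ∨
        ∃ γ : ℕ → ℕ, (∀ i < n, γ i = p.2 k i) ∧ (∀ i < n, (F γ).1 i = p.1 k i) ∧
          (∀ i < n, (F γ).2 i = p.1 (k+1) i)}))) := by
      ext p; rfl
    rw [this]
    exact hA.inter (hB.inter (hC.inter hD))
  have hne : ∀ n, (C n).Nonempty := by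
    intro n
    obtain ⟨w, γ, h1, h2, h3⟩ := h n
    refine ⟨(w, fun k i => min (γ k i) (α i)), fun k i => min_le_right _ _, h1, h2, ?_⟩
    intro k hk
    rcases h3 k hk with h | ⟨ha, hb, hc⟩
    · exact Or.inl h
    · refine Or.inr ⟨γ k, fun i hi => ?_, hb, hc⟩
      exact (min_eq_left (ha i hi)).symm
  have hdec : ∀ n, C (n+1) ⊆ C n := by
    rintro n p ⟨h0, h1, h2, h3⟩
    refine ⟨h0, fun i hi => h1 i (by omega), fun i hi => h2 i (by omega), fun k hk => ?_⟩
    rcases h3 k hk with h | ⟨γ, ha, hb, hc⟩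
    · exact Or.inl fun i hi => h i (by omega)
    · exact Or.inr ⟨γ, fun i hi => ha i (by omega), fun i hi => hb i (by omega),
        fun i hi => hc i (by omega)⟩
  have hc0 : IsCompact (C 0) := by
    refine hcomp.of_isClosed_subset (hclosed 0) ?_
    rintro p ⟨h0, -⟩
    exact h0
  obtain ⟨⟨w, β⟩, hw⟩ := IsCompact.nonempty_iInter_of_sequence_nonempty_isCompact_isClosed C hdec
    hne hc0 hclosed
  rw [Set.mem_iInter] at hw
  refine ⟨w, ?_, ?_, ?_⟩
  · funext i
    exact (hw (i+1)).2.1 i (Nat.lt_succ_self i)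
  · funext i
    exact (hw (i+1)).2.2.1 i (Nat.lt_succ_self i)
  · intro k hk
    by_cases hcase : w k = w (k+1)
    · exact Or.inl hcase
    · right
      -- some coordinate at which they differ
      obtain ⟨m, hm⟩ : ∃ m, w k m ≠ w (k+1) m := by
        by_contra hcon
        push Not at hcon
        exact hcase (funext hcon)
      have key : ∀ n, ∃ γ : ℕ → ℕ, (∀ i < n, γ i = β k i) ∧ (∀ i < n, (F γ).1 i = w k i) ∧
          (∀ i < n, (F γ).2 i = w (k+1) i) := by
        intro n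
        rcases (hw (max n (m+1))).2.2.2 k hk with h | ⟨γ, ha, hb, hc⟩
        · exact absurd (h m (lt_of_lt_of_le (Nat.lt_succ_self m) (le_max_right _ _))) hm
        · exact ⟨γ, fun i hi => ha i (lt_of_lt_of_le hi (le_max_left _ _)),
            fun i hi => hb i (lt_of_lt_of_le hi (le_max_left _ _)),
            fun i hi => hc i (lt_of_lt_of_le hi (le_max_left _ _))⟩
      choose γ hγ1 hγ2 hγ3 using key
      have hlim : Filter.Tendsto γ Filter.atTop (nhds (β k)) := by
        rw [tendsto_pi_nhds]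
        intro i
        apply tendsto_const_nhds.congr'
        filter_upwards [Filter.eventually_gt_atTop i] with n hn
        exact (hγ1 n i hn).symm
      have hlim2 : Filter.Tendsto (fun n => F (γ n)) Filter.atTop (nhds (F (β k))) :=
        (hF.tendsto (β k)).comp hlim
      have hlim3 : Filter.Tendsto (fun n => F (γ n)) Filter.atTop (nhds (w k, w (k+1))) := by
        rw [nhds_prod_eq]
        refine Filter.Tendsto.prodMk ?_ ?_
        · rw [tendsto_pi_nhds]
          intro i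
          apply tendsto_const_nhds.congr'
          filter_upwards [Filter.eventually_gt_atTop i] with n hn
          exact (hγ2 n i hn).symm
        · rw [tendsto_pi_nhds]
          intro i
          apply tendsto_const_nhds.congr'
          filter_upwards [Filter.eventually_gt_atTop i] with n hn
          exact (hγ3 n i hn).symm
      exact ⟨β k, tendsto_nhds_unique hlim2 hlim3⟩

end Pool.Agent.Run7.h461.EE
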